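import Mathlib
import Pool.Agent.H837Z.Diam2

set_option autoImplicit false

namespace Pool.Agent.Results.MP_914893_an.Duality

/-- `W` is a relatively weakly open subset of the closed unit ball of `X`. -/
def RelWeaklyOpen (X : Type*) [NormedAddCommGroup X] [NormedSpace ℝ X] (W : Set X) : Prop :=
  ∃ U : Set (WeakSpace ℝ X), IsOpen U ∧
    W = Metric.closedBall (0 : X) 1 ∩ (toWeakSpace ℝ X) ⁻¹' U

/-- `W` is a relatively weak-star open subset of the closed unit ball of the dual of `X`. -/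
def RelWeakStarOpen (X : Type*) [NormedAddCommGroup X] [NormedSpace ℝ X]
    (W : Set (StrongDual ℝ X)) : Prop :=
  ∃ U : Set (WeakDual ℝ X), IsOpen U ∧
    W = Metric.closedBall (0 : StrongDual ℝ X) 1 ∩ StrongDual.toWeakDual ⁻¹' U

/-- The diametral diameter two property of `X`. -/
def DD2P (X : Type*) [NormedAddCommGroup X] [NormedSpace ℝ X] : Prop :=
  ∀ W : Set X, RelWeaklyOpen X W → W.Nonempty → ∀ x ∈ W, ‖x‖ = 1 → ∀ ε : ℝ, 0 < ε →
    ∃ y ∈ W, 2 - ε < ‖x - y‖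

/-- The weak-star diametral diameter two property of the dual of `X`. -/
def WeakStarDD2P (X : Type*) [NormedAddCommGroup X] [NormedSpace ℝ X] : Prop :=
  ∀ W : Set (StrongDual ℝ X), RelWeakStarOpen X W → W.Nonempty → ∀ f ∈ W, ‖f‖ = 1 →
    ∀ ε : ℝ, 0 < ε → ∃ g ∈ W, 2 - ε < ‖f - g‖

open Pool.Agent.H837Z.Diam2

theorem dd2p_iff (X : Type*) [NormedAddCommGroup X] [NormedSpace ℝ X] :
    DD2P X ↔ DD (topDualPairing ℝ X).flip := by
  constructor
  · intro h U hU e he heU ε hε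
    have hmem : e ∈ Metric.closedBall (0 : X) 1 ∩
        (toWeakSpace ℝ X) ⁻¹' (show Set (WeakSpace ℝ X) from U) :=
      ⟨by simp [he], heU⟩
    obtain ⟨y, hy, hy2⟩ := h _ ⟨U, hU, rfl⟩ ⟨e, hmem⟩ e hmem he ε hε
    exact ⟨y, by simpa using hy.1, hy.2, hy2⟩
  · rintro h W ⟨U, hU, rfl⟩ - x hx hx1 ε hε
    obtain ⟨y, hy1, hy2, hy3⟩ := h U hU x hx1 hx.2 ε hε
    exact ⟨y, ⟨by simpa using hy1, hy2⟩, hy3⟩

theorem wdd2p_iff (X : Type*) [NormedAddCommGroup X] [NormedSpace ℝ X] :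
    WeakStarDD2P X ↔ DD (E := StrongDual ℝ X) (topDualPairing ℝ X) := by
  constructor
  · intro h U hU e he heU ε hε
    have hmem : e ∈ Metric.closedBall (0 : StrongDual ℝ X) 1 ∩
        StrongDual.toWeakDual ⁻¹' (show Set (WeakDual ℝ X) from U) :=
      ⟨by simp [he], heU⟩
    obtain ⟨y, hy, hy2⟩ := h _ ⟨U, hU, rfl⟩ ⟨e, hmem⟩ e hmem he ε hε
    exact ⟨y, by simpa using hy.1, hy.2, hy2⟩
  · rintro h W ⟨U, hU, rfl⟩ - x hx hx1 ε hε
    obtain ⟨y, hy1, hy2, hy3⟩ := h U hU x hx1 hx.2 ε hε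
    exact ⟨y, ⟨by simpa using hy1, hy2⟩, hy3⟩

theorem result (X : Type*) [NormedAddCommGroup X] [NormedSpace ℝ X] [CompleteSpace X] :
    DD2P X ↔ WeakStarDD2P X := by
  have hb : ∀ (f : StrongDual ℝ X) (x : X), |f x| ≤ ‖f‖ * ‖x‖ := fun f x => by
    simpa [Real.norm_eq_abs] using f.le_opNorm x
  have hB1 : ∀ (f : StrongDual ℝ X) (x : X), |topDualPairing ℝ X f x| ≤ ‖f‖ * ‖x‖ := hb
  have hB2 : ∀ (x : X) (f : StrongDual ℝ X),
      |(topDualPairing ℝ X).flip x f| ≤ ‖x‖ * ‖f‖ := fun x f => by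
    rw [mul_comm]; exact hb f x
  have hx : ∀ (x : X) (c : ℝ), c < ‖x‖ → ∃ f : StrongDual ℝ X, ‖f‖ ≤ 1 ∧ c < f x := by
    intro x c hc
    obtain ⟨f, hf1, hf2⟩ := exists_dual_vector'' ℝ x
    refine ⟨f, hf1, ?_⟩
    have : f x = ‖x‖ := by simpa using hf2
    rw [this]; exact hc
  have hf : ∀ (f : StrongDual ℝ X) (c : ℝ), c < ‖f‖ → ∃ x : X, ‖x‖ ≤ 1 ∧ c < f x := by
    intro f c hc
    by_cases h0 : c < 0
    · exact ⟨0, by simp, by simpa using h0⟩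
    · obtain ⟨x, hx1, hx2⟩ := f.exists_lt_apply_of_lt_opNorm hc
      rw [Real.norm_eq_abs] at hx2
      rcases lt_abs.mp hx2 with h | h
      · exact ⟨x, hx1.le, h⟩
      · exact ⟨-x, by rw [norm_neg]; exact hx1.le, by rw [map_neg]; exact h⟩
  rw [dd2p_iff, wdd2p_iff]
  constructor
  · intro h
    have h1 := dld_flip _ hB2 hx hf (dld_of_dd _ h)
    exact dd_of_dld _ hB1 h1
  · intro h
    have h1 := dld_flip (E := StrongDual ℝ X) (topDualPairing ℝ X) hB1 hf hx (dld_of_dd _ h)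
    exact dd_of_dld _ hB2 h1

end Pool.Agent.Results.MP_914893_an.Duality
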